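import Pool.Agent.H42.Dirac

open Set Cardinal Ordinal Pool.Agent.H42.Dirac

/-- If the meager ideal has cofinality at most `ℵ₁` and the continuum is `ℵ_(ω₁)`, then the
covering number of the meager ideal is `ℵ₁`, below the continuum, and there is a
continuum-Luzin set. -/
theorem Pool.Agent.Results.MP_35f06d_lc.Cons.result (hc : (𝔠 : Cardinal.{0}) = ℵ_ (ω_ 1))
    (hB : ∃ B : Set (Set ℝ), #B ≤ ℵ₁ ∧ (∀ M ∈ B, IsMeagre M) ∧
      ∀ M, IsMeagre M → ∃ N ∈ B, M ⊆ N) :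
    sInf {c | ∃ F : Set (Set ℝ), #F = c ∧ (∀ M ∈ F, IsMeagre M) ∧ ⋃₀ F = Set.univ} = ℵ₁ ∧
      ℵ₁ < (𝔠 : Cardinal.{0}) ∧
      ∃ L : Set ℝ, #L = 𝔠 ∧ ∀ M, IsMeagre M → #(L ∩ M : Set ℝ) < 𝔠 := by
  obtain ⟨B, h1, h2, h3⟩ := hB
  have cov : ⋃₀ B = Set.univ := eq_univ_of_forall fun x => by
    obtain ⟨N, a, b⟩ := h3 {x}
      (isClosed_singleton.isNowhereDense_iff.2 (interior_singleton x)).isMeagre
    exact ⟨N, a, b rfl⟩
  have big : ∀ M : Set ℝ, IsMeagre M → 𝔠 ≤ #(Mᶜ : Set ℝ) := fun M hM => by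
    by_contra! c
    obtain ⟨t, ht⟩ : ∃ t, t ∉ range fun p : (Mᶜ : Set ℝ) × (Mᶜ : Set ℝ) => p.1.1 - p.2.1 := by
      by_contra! d
      have := mk_range_le (f := fun p : (Mᶜ : Set ℝ) × (Mᶜ : Set ℝ) => p.1.1 - p.2.1)
      rw [eq_univ_of_forall d, Cardinal.mk_univ, mk_real, mk_prod, Cardinal.lift_id] at this
      exact this.not_gt (mul_lt_of_lt aleph0_le_continuum c c)
    obtain ⟨x, a, b⟩ := (dense_of_mem_residual (Filter.inter_mem hM (hM.preimage_of_isOpenMap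
      (continuous_add_const t) (isOpenMap_add_right t)))).nonempty
    exact ht ⟨(⟨_, b⟩, ⟨_, a⟩), by simp⟩
  have lt : ∀ a : W, ℵ_ (typein (α := W) (· < ·) a) < 𝔠 := fun a => by
    rw [hc, aleph_lt_aleph]
    simpa [W] using typein_lt_type (α := W) (· < ·) a
  refine ⟨le_antisymm (le_trans (b := #B) (csInf_le' ⟨B, rfl, h2, cov⟩) h1)
    (le_csInf ⟨_, B, rfl, h2, cov⟩ ?_), by
      rw [hc, aleph_lt_aleph]; exact one_lt_omega0.trans omega0_lt_omega_one, ?_⟩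
  · rintro _ ⟨F, rfl, a, b⟩
    by_contra! c
    have := isMeagre_biUnion (le_aleph0_iff_set_countable.1 (lt_aleph_one_iff.1 c)) a
    rw [← sUnion_eq_biUnion, b] at this
    exact not_isMeagre_of_isOpen isOpen_univ univ_nonempty this
  obtain ⟨e⟩ : Nonempty (B ↪ W) := by rwa [← Cardinal.le_def, W_card]
  let N : W → Set ℝ := fun a => ⋃ M ∈ e ⁻¹' Iic a, M.1
  choose L l1 l2 using fun a : W => le_mk_iff_exists_subset.1 ((lt a).le.trans (big (N a)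
    (isMeagre_biUnion ((Iic_count a).preimage e.injective) fun M _ => h2 _ M.2)))
  refine ⟨⋃ a, L a, le_antisymm ((mk_set_le _).trans_eq mk_real) ?_, fun M hM => ?_⟩
  · rw [hc, aleph_limit (isSuccLimit_omega 1)]
    refine ciSup_le' fun o => ?_
    obtain ⟨a, ha⟩ := typein_surj (α := W) (· < ·) (o := o) (by simpa [W] using mem_Iio.1 o.2)
    rw [← ha, ← l2]
    exact mk_le_mk_of_subset (subset_iUnion L a)
  obtain ⟨K, a, b⟩ := h3 M hM
  refine lt_of_le_of_lt ?_ (lt (e ⟨K, a⟩))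
  refine (mk_le_mk_of_subset (t := ⋃ c : Iio (e ⟨K, a⟩), L c) ?_).trans
    (mk_iUnion_le_sum_mk.trans ((sum_le_sum _ (fun _ => ℵ_ (typein (α := W) (· < ·) (e ⟨K, a⟩)))
      fun c => ?_).trans ?_))
  · rintro x ⟨c, d⟩
    obtain ⟨c, f⟩ := mem_iUnion.1 c
    exact mem_iUnion.2 ⟨⟨c, mem_Iio.2 <| not_le.1 fun g => l1 c f (mem_iUnion₂.2 ⟨⟨K, a⟩, g, b d⟩)⟩, f⟩
  · rw [l2, aleph_le_aleph]
    exact ((typein_lt_typein (α := W) (· < ·)).2 c.2).le
  · rw [sum_const']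
    exact (mul_le_mul_left (Iio_count _).le_aleph0 _).trans_eq (aleph0_mul_aleph _)
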